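import Mathlib

/-!
# Graphs with a unique proper sum-colouring weighting from three weights

For every set `S` of three real numbers and every `m ≥ 1`, the disjoint union of `m` triangles has,
up to isomorphism, exactly one edge `S`-weighting that properly colours the vertices by sums.
-/

set_option autoImplicit false

namespace Pool.Agent.Results.MP_9e9a14_co.Triangles

variable {V : Type} [Fintype V]

open Classical in
/-- The vertex sum `σ_w(v)`: the sum of the weights of the edges containing `v`. -/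
noncomputable def vertexSum (G : SimpleGraph V) (w : G.edgeSet → ℝ) (v : V) : ℝ :=
  ∑ e : G.edgeSet, if v ∈ (e : Sym2 V) then w e else 0

/-- `w` is an edge `S`-weighting which properly colours the vertices of `G` by sums. -/
def IsProperWeighting (G : SimpleGraph V) (S : Set ℝ) (w : G.edgeSet → ℝ) : Prop :=
  (∀ e, w e ∈ S) ∧ ∀ u v, G.Adj u v → vertexSum G w u ≠ vertexSum G w v

/-- The edge weightings `w`, `w'` are isomorphic: an automorphism of `G` carries `w` to `w'`. -/
def Isomorphic (G : SimpleGraph V) (w w' : G.edgeSet → ℝ) : Prop :=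
  ∃ φ : G ≃g G, ∀ e : G.edgeSet, w' (φ.mapEdgeSet e) = w e

/-- `G` is uniquely `S`-weight colourable: there is an edge `S`-weighting properly colouring the
vertices by sums, and any two such weightings are isomorphic. -/
def UniquelyWeightColourable (G : SimpleGraph V) (S : Set ℝ) : Prop :=
  (∃ w, IsProperWeighting G S w) ∧
    ∀ w w', IsProperWeighting G S w → IsProperWeighting G S w' → Isomorphic G w w'

/-- The disjoint union of `m` triangles; for `m = 1` this is the complete graph `K_3`. -/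
def triangles (m : ℕ) : SimpleGraph (Fin m × Fin 3) where
  Adj x y := x.1 = y.1 ∧ x.2 ≠ y.2
  symm := ⟨fun _ _ h => ⟨h.1.symm, h.2.symm⟩⟩
  loopless := ⟨fun _ h => h.2 rfl⟩

theorem fin3_ne (k : Fin 3) : k + 1 ≠ k + 2 := by revert k; decide

theorem fin3_ne' (k : Fin 3) : k + 1 ≠ k := by revert k; decide

theorem fin3_cases (k l : Fin 3) (h : k ≠ l) : k = l + 1 ∨ k = l + 2 := by revert k l; decide

theorem fin3_pair (k l : Fin 3) (h : k ≠ l) :
    ∃ p : Fin 3, (p + 1 = k ∧ p + 2 = l) ∨ (p + 1 = l ∧ p + 2 = k) := by revert k l; decide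

theorem fin3_perm (π : Equiv.Perm (Fin 3)) (k : Fin 3) :
    (π (k + 1) = π k + 1 ∧ π (k + 2) = π k + 2) ∨ (π (k + 1) = π k + 2 ∧ π (k + 2) = π k + 1) := by
  revert π k; decide

/-- The edge of the triangle `i` opposite to the vertex `(i, k)`. -/
def opp {m : ℕ} (x : Fin m × Fin 3) : (triangles m).edgeSet :=
  ⟨s((x.1, x.2 + 1), (x.1, x.2 + 2)), by
    rw [SimpleGraph.mem_edgeSet]
    exact ⟨rfl, fin3_ne x.2⟩⟩

theorem mem_opp {m : ℕ} (x y : Fin m × Fin 3) :
    x ∈ ((opp y : (triangles m).edgeSet) : Sym2 (Fin m × Fin 3)) ↔ x.1 = y.1 ∧ x.2 ≠ y.2 := by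
  obtain ⟨i, k⟩ := x
  obtain ⟨j, l⟩ := y
  simp only [opp, Sym2.mem_iff, Prod.mk.injEq]
  constructor
  · rintro (⟨rfl, rfl⟩ | ⟨rfl, rfl⟩)
    · exact ⟨rfl, fin3_ne' l⟩
    · exact ⟨rfl, by revert l; decide⟩
  · rintro ⟨rfl, h⟩
    rcases fin3_cases k l h with h | h
    · exact Or.inl ⟨rfl, h⟩
    · exact Or.inr ⟨rfl, h⟩

theorem opp_bijective {m : ℕ} : Function.Bijective (opp : Fin m × Fin 3 → (triangles m).edgeSet) := by
  constructor
  · intro x y h
    have h1 : ∀ z, z ∈ ((opp x : (triangles m).edgeSet) : Sym2 (Fin m × Fin 3)) ↔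
        z ∈ ((opp y : (triangles m).edgeSet) : Sym2 (Fin m × Fin 3)) := by
      intro z; rw [h]
    simp only [mem_opp] at h1
    obtain ⟨i, k⟩ := x
    obtain ⟨j, l⟩ := y
    have h2 := (h1 (i, k + 1)).mp ⟨rfl, fin3_ne' k⟩
    have h3 : i = j := h2.1
    subst h3
    have h4 : k = l := by
      by_contra hkl
      exact ((h1 (i, k)).mpr ⟨rfl, hkl⟩).2 rfl
    rw [h4]
  · rintro ⟨e, he⟩
    induction e using Sym2.ind with
    | _ x y =>
      have he' := he
      rw [SimpleGraph.mem_edgeSet] at he'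
      obtain ⟨i, k⟩ := x
      obtain ⟨j, l⟩ := y
      obtain ⟨h1, h2⟩ := he'
      simp only at h1 h2
      subst h1
      obtain ⟨p, ⟨hp1, hp2⟩ | ⟨hp1, hp2⟩⟩ := fin3_pair k l h2
      · refine ⟨(i, p), Subtype.ext ?_⟩
        simp only [opp, hp1, hp2]
      · refine ⟨(i, p), Subtype.ext ?_⟩
        simp only [opp, hp1, hp2]
        exact Sym2.eq_swap

theorem vertexSum_eq {m : ℕ} (w : (triangles m).edgeSet → ℝ) (i : Fin m) (k : Fin 3) :
    vertexSum (triangles m) w (i, k) = (∑ l : Fin 3, w (opp (i, l))) - w (opp (i, k)) := by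
  classical
  unfold vertexSum
  rw [← Equiv.sum_comp (Equiv.ofBijective _ (opp_bijective (m := m)))]
  simp only [Equiv.ofBijective_apply, mem_opp]
  rw [Fintype.sum_prod_type]
  rw [Finset.sum_eq_single i]
  · rw [Fin.sum_univ_three, Fin.sum_univ_three]
    fin_cases k <;> simp <;> ring
  · intro j _ hj
    refine Finset.sum_eq_zero fun l _ => ?_
    rw [if_neg]
    rintro ⟨h, _⟩
    exact hj h.symm
  · intro h
    exact absurd (Finset.mem_univ i) h

theorem proper_iff {m : ℕ} (S : Set ℝ) (w : (triangles m).edgeSet → ℝ) :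
    IsProperWeighting (triangles m) S w ↔
      (∀ e, w e ∈ S) ∧ ∀ i, Function.Injective fun k => w (opp (i, k)) := by
  unfold IsProperWeighting
  refine and_congr_right fun _ => ⟨fun h i k l hkl => ?_, fun h u v huv => ?_⟩
  · by_contra hne
    refine h (i, k) (i, l) ⟨rfl, hne⟩ ?_
    rw [vertexSum_eq, vertexSum_eq]
    simp only at hkl
    rw [hkl]
  · obtain ⟨i, k⟩ := u
    obtain ⟨j, l⟩ := v
    obtain ⟨h1, h2⟩ := huv
    simp only at h1 h2
    subst h1
    rw [vertexSum_eq, vertexSum_eq]
    intro h3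
    exact h2 (h i (by simpa using h3))

/-- For every `m ≥ 1` and every set `S` of three real numbers, the disjoint union of `m`
triangles is uniquely `S`-weight colourable. -/
theorem result (m : ℕ) (hm : 1 ≤ m) (S : Set ℝ) (hS : S.ncard = 3) :
    UniquelyWeightColourable (triangles m) S ∧ (triangles m).edgeSet.Nonempty := by
  classical
  have hfin : S.Finite := Set.finite_of_ncard_ne_zero (by omega)
  have : Fintype S := hfin.fintype
  have hcard : Fintype.card S = 3 := by
    rw [← hS, ← Nat.card_coe_set_eq, Nat.card_eq_fintype_card]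
  have hbij : ∀ w : (triangles m).edgeSet → ℝ, IsProperWeighting (triangles m) S w → ∀ i : Fin m,
      ∃ a : Fin 3 ≃ S, ∀ k, (a k : ℝ) = w (opp (i, k)) := by
    intro w hw i
    rw [proper_iff] at hw
    have h1 : Function.Injective (fun k : Fin 3 => (⟨w (opp (i, k)), hw.1 _⟩ : S)) := by
      intro k l h
      exact hw.2 i (congrArg Subtype.val h)
    have h2 := (Fintype.bijective_iff_injective_and_card _).mpr ⟨h1, by rw [hcard, Fintype.card_fin]⟩
    exact ⟨Equiv.ofBijective _ h2, fun k => rfl⟩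
  refine ⟨⟨?_, ?_⟩, ?_⟩
  · have a : Fin 3 ≃ S := Fintype.equivOfCardEq (by rw [hcard, Fintype.card_fin])
    refine ⟨fun e => a ((Equiv.ofBijective _ (opp_bijective (m := m))).symm e).2, ?_⟩
    rw [proper_iff]
    refine ⟨fun e => (a _).2, fun i k l h => ?_⟩
    have h1 : ∀ x : Fin m × Fin 3,
        (Equiv.ofBijective _ (opp_bijective (m := m))).symm (opp x) = x := fun x =>
      (Equiv.ofBijective _ (opp_bijective (m := m))).symm_apply_apply x
    simp only [h1] at h
    exact a.injective (Subtype.ext h)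
  · intro w w' hw hw'
    choose a ha using hbij w hw
    choose b hb using hbij w' hw'
    let π : Fin m → Equiv.Perm (Fin 3) := fun i => (a i).trans (b i).symm
    have hπ : ∀ i k, w' (opp (i, π i k)) = w (opp (i, k)) := by
      intro i k
      rw [← hb, ← ha]
      simp [π]
    let φ : triangles m ≃g triangles m :=
      { toEquiv := Equiv.prodShear (Equiv.refl _) π
        map_rel_iff' := by
          rintro ⟨i, k⟩ ⟨j, l⟩
          show (i = j ∧ π i k ≠ π j l) ↔ (i = j ∧ k ≠ l)
          constructor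
          · rintro ⟨rfl, h⟩
            exact ⟨rfl, fun h' => h (by rw [h'])⟩
          · rintro ⟨rfl, h⟩
            exact ⟨rfl, fun h' => h ((π i).injective h')⟩ }
    refine ⟨φ, fun e => ?_⟩
    obtain ⟨⟨i, k⟩, rfl⟩ := opp_bijective.2 e
    have h1 : φ.mapEdgeSet (opp (i, k)) = opp (i, π i k) := by
      apply Subtype.ext
      show Sym2.map φ s((i, k + 1), (i, k + 2)) = s((i, π i k + 1), (i, π i k + 2))
      rw [Sym2.map_mk]
      show s((i, π i (k + 1)), (i, π i (k + 2))) = _
      rcases fin3_perm (π i) k with ⟨h1, h2⟩ | ⟨h1, h2⟩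
      · rw [h1, h2]
      · rw [h1, h2]
        exact Sym2.eq_swap
    rw [h1, hπ]
  · exact ⟨_, (opp (⟨0, by omega⟩, 0) : (triangles m).edgeSet).2⟩

end Pool.Agent.Results.MP_9e9a14_co.Triangles
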